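import Pool.Agent.Lib.helper29.Dual2

set_option autoImplicit false

namespace Pool.Agent.Results.MP_061dbe_an.NotInDual

open Metric Pool.Agent.Lib.H29.Dual

theorem result : ∃ ρ₀ : ℝ, 0 < ρ₀ ∧ ρ₀ ≤ 1 ∧ ∀ (x : ℂ) (ρ : ℝ), ‖x‖ ≤ ρ → ρ ≤ ρ₀ →
    ∃ (g h : ℂ → ℂ) (z₀ : ℂ),
      (DifferentiableOn ℂ g (ball 0 1) ∧ g 0 = 0 ∧ deriv g 0 = 1) ∧
      (∀ z ∈ ball (0 : ℂ) 1, z ≠ 0 →
        ‖(deriv g z - deriv (fun w => w / (1 - x * w)) z) - (g z - z / (1 - x * z)) / z‖ +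
          ‖(deriv g z - deriv (fun w => w / (1 - x * w)) z) + (g z - z / (1 - x * z)) / z‖ <
          2 * (1 / (1 + ρ) ^ 2)) ∧
      (DifferentiableOn ℂ h (ball 0 1) ∧ h 0 = 0 ∧ deriv h 0 = 1 ∧ Set.InjOn h (ball 0 1)) ∧
      0 < ‖z₀‖ ∧ ‖z₀‖ < 1 ∧
      HasSum (fun n : ℕ => (iteratedDeriv n g 0 / (n.factorial : ℂ)) *
        (iteratedDeriv n h 0 / (n.factorial : ℂ)) * z₀ ^ n) 0 := by
  obtain ⟨δ, hδ, H⟩ := Metric.eventually_nhds_iff_ball.1 HH_ev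
  refine ⟨min (δ / 2) (1 / 100000), by positivity, (min_le_right _ _).trans (by norm_num),
    fun x ρ hx hρ => ?_⟩
  have r0 : 0 ≤ ρ := (norm_nonneg _).trans hx
  have r1 : ρ ≤ 1 / 100000 := hρ.trans (min_le_right _ _)
  have r2 : ρ ≤ δ / 2 := hρ.trans (min_le_left _ _)
  have x1 : ‖x‖ ≤ 1 := by linarith
  have hμ : ‖-HH (x * z0) / L‖ ≤ 1 / (1 + ρ) ^ 2 := by
    have a := H (x * z0) (by
      rw [mem_ball_zero_iff, norm_mul, z0_norm]
      nlinarith [norm_nonneg x])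
    have b := L_ge'
    rw [norm_div, norm_neg, div_le_div_iff₀ (by linarith) (by positivity)]
    have c : (1 + ρ) ^ 2 ≤ 100003 / 100000 := by nlinarith
    have d := mul_le_mul a.le c (by positivity) (by norm_num)
    linarith
  refine ⟨gx x (-HH (x * z0) / L), h yy, z0, ⟨fun z hz => ?_, ?_, ?_⟩,
    fun z hz h0 => gx_bound x1 hμ (by positivity) (mem_ball_zero_iff.1 hz) h0,
    ⟨fun z hz => (h_an yy_norm (mem_ball_zero_iff.1 hz)).differentiableAt.differentiableWithinAt,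
      by simp [h], ?_, h_inj yy_norm⟩, by rw [z0_norm]; norm_num, by rw [z0_norm]; norm_num,
    conv_zero' x1⟩
  · exact ((fx_an x1 (mem_ball_zero_iff.1 hz)).differentiableAt.fun_add
      ((φ_deriv z).differentiableAt.const_mul _)).differentiableWithinAt
  · simpa [tt, pc] using gx_coeff (-HH (x * z0) / L) x1 0
  · simpa [tt, pc] using gx_coeff (-HH (x * z0) / L) x1 1
  · simpa [aa] using h_coeff yy_norm (n := 1) (by norm_num)

end Pool.Agent.Results.MP_061dbe_an.NotInDual
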